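import Pool.Agent.Lib.MP_d439b2_co.A0.Final
import Pool.Agent.Lib.MP_d439b2_co.X3.H3N.Defs

/-!
# MP_d439b2_co, X3/KB: graphs without large complete bipartite subgraphs (helper99)

`kb`: for `H` with `DT H` and `InGrid H` and every `n` there is `k`: the graphs without the induced minor `H` and without
complete bipartite subgraphs with `n + n` vertices have layouts of width `k`.  `kb3`: `H3N.S_KB`; `kb1`: the same for
`K3:0,1,02`.
-/

set_option autoImplicit false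

namespace Pool.Agent.MPd439b2.X3

open Pool.Agent.MPd439b2 Pool.Agent.MPd439b2.Rep Pool.Agent.MPd439b2.F9

/-- a complete bipartite subgraph with `n + n` vertices -/
def Knn {V : Type} (G : SimpleGraph V) (n : ℕ) : Prop :=
  ∃ Q₁ Q₂ : Set V, Disjoint Q₁ Q₂ ∧ n ≤ Q₁.ncard ∧ n ≤ Q₂.ncard ∧ ∀ a ∈ Q₁, ∀ b ∈ Q₂, G.Adj a b

section gen

variable {I : Type} {H : SimpleGraph I}

/-- a large model of a complete graph gives a large complete bipartite subgraph (`A0.S_Q0` for `H`) -/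
theorem q0 (hD : DT H) (n : ℕ) : ∃ t₀ : ℕ, ∀ (V : Type) [Finite V] (G : SimpleGraph V)
    (B : ℕ → Set V), ¬ IMS H G Set.univ → Mdl G (Finset.range t₀) B → Knn G n := by
  obtain ⟨⟨N₁, m₁, hD1⟩, N₂, m₂, r, l, hT⟩ := hD
  obtain ⟨N, m, r', l', -, -, hD', hT', -⟩ := KS.z0 _ _ _ _ N₁ m₁ N₂ m₂ r l hD1 hT
  obtain ⟨t₀, ht⟩ := KS.kU9 N m n r' l'
  refine ⟨t₀, ?_⟩
  intro V _ G B hG hB
  rw [← ims_univ_iff] at hD' hT'
  obtain ⟨Q₁, Q₂, h1, h2, h3, h4, -⟩ := ht t₀ le_rfl V G B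
    (fun h => hG (A0.aQ0Aux.ims_trans hD' h)) (fun h => hG (A0.aQ0Aux.ims_trans hT' h)) hB
  exact ⟨Q₁, Q₂, h1, h2, h3, h4⟩

/-- without a large model of a complete graph the width is bounded (`A0.S_Kt` for `H`) -/
theorem kt [Finite I] (h1 : InGrid H) (r : ℕ) : ∃ k : ℕ, ∀ (V : Type) [Finite V]
    (G : SimpleGraph V), ¬ IMS H G Set.univ → (¬ ∃ B : ℕ → Set V, Mdl G (Finset.range r) B) →
      Lay G k Set.univ := by
  classical
  have hg : Good (⊤ : SimpleGraph (Fin r)) H := by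
    refine ⟨Or.inr h1, Or.inl ⟨⟨Set.univ, ?_, ?_, ?_⟩, Or.inl ?_⟩⟩
    · intro u _ v _ huv
      exact huv
    · intro u hu
      exact absurd (Set.mem_univ u) hu
    · intro v hv
      exact absurd (Set.mem_univ v) hv
    · intro u v huv
      exact huv
  obtain ⟨c, hc⟩ := F9.goodF (Fin r) I ⊤ H hg
  refine ⟨c, ?_⟩
  intro V _ G hK hM
  rcases isEmpty_or_nonempty V with hV | hV
  · rw [Set.univ_eq_empty_iff.2 hV]
    exact Lay.empty
  · refine KS.pY8 V G c (hc V G (fun hI => hM ?_) (fun hI => hK (ims_univ_iff.2 hI)))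
    obtain ⟨B, hB1, hB2, hB3⟩ := hI
    refine ⟨fun i => if h : i < r then B ⟨i, h⟩ else ∅, ?_, ?_⟩
    · intro i hi
      rw [Finset.mem_range] at hi
      dsimp only
      rw [dif_pos hi]
      exact (conn_iff G _).2 (hB1 _)
    · intro i hi j hj hij
      rw [Finset.mem_range] at hi hj
      have hne : (⟨i, hi⟩ : Fin r) ≠ ⟨j, hj⟩ := fun h => hij (congrArg Fin.val h)
      dsimp only
      rw [dif_pos hi, dif_pos hj]
      exact ⟨hB2 _ _ hne, (hB3 _ _ hne).1 hne⟩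

/-- **Theorem KB.** -/
theorem kb [Finite I] (hD : DT H) (hG : InGrid H) (n : ℕ) : ∃ k : ℕ, ∀ (V : Type) [Finite V]
    (G : SimpleGraph V), ¬ IMS H G Set.univ → ¬ Knn G n → Lay G k Set.univ := by
  obtain ⟨t₀, ht⟩ := q0 hD n
  obtain ⟨k, hk⟩ := kt hG t₀
  exact ⟨k, fun V _ G h1 h2 => hk V G h1 fun ⟨B, hB⟩ => h2 (ht V G B h1 hB)⟩

end gen

/-! ### the two graphs -/

/-- adjacency in `KA 3 3 N`, computable -/
def kab (N : Fin 3 → Fin 3 → Bool) : Fin 3 ⊕ Fin 3 → Fin 3 ⊕ Fin 3 → Bool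
  | Sum.inl i, Sum.inl j => decide (i ≠ j)
  | Sum.inl i, Sum.inr q => N q i
  | Sum.inr q, Sum.inl i => N q i
  | Sum.inr _, Sum.inr _ => false

theorem kab_iff {N : Fin 3 → Fin 3 → Bool} {M : Fin 3 → Set (Fin 3)}
    (h : ∀ q i, i ∈ M q ↔ N q i = true) (u v : Fin 3 ⊕ Fin 3) :
    (KA 3 3 M).Adj u v ↔ kab N u v = true := by
  rcases u with i | q <;> rcases v with j | r
  · change i ≠ j ↔ decide (i ≠ j) = true
    rw [decide_eq_true_iff]
  · change i ∈ M r ↔ N r i = true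
    exact h r i
  · change j ∈ M q ↔ N q j = true
    exact h q j
  · change False ↔ false = true
    exact ⟨fun h => h.elim, fun h => absurd h (by decide)⟩

theorem mem3 (q i : Fin 3) : i ∈ (![{0}, {0, 1}, {1, 2}] : Fin 3 → Set (Fin 3)) q ↔
    (![![true, false, false], ![true, true, false], ![false, true, true]] :
      Fin 3 → Fin 3 → Bool) q i = true := by
  fin_cases q <;> fin_cases i <;> simp

theorem mem1 (q i : Fin 3) : i ∈ (![{0}, {1}, {0, 2}] : Fin 3 → Set (Fin 3)) q ↔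
    (![![true, false, false], ![false, true, false], ![true, false, true]] :
      Fin 3 → Fin 3 → Bool) q i = true := by
  fin_cases q <;> fin_cases i <;> simp

/-- the model of `K3:0,01,12` in the grid -/
def cm3 (v : Fin 4 × Fin 4) : Option (Fin 3 ⊕ Fin 3) :=
  if v.1 = 0 then some (Sum.inl 1)
  else if v.1 = 1 then
    (if v.2 = 0 then some (Sum.inr 1) else if v.2 = 1 then some (Sum.inl 0)
      else if v.2 = 2 then some (Sum.inl 2) else some (Sum.inr 2))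
  else if v.1 = 2 then (if v.2 = 1 then some (Sum.inr 0) else none)
  else none

/-- the roots of the branch sets -/
def rt3 : Fin 3 ⊕ Fin 3 → Fin 4 × Fin 4
  | Sum.inl i => if i = 0 then (1, 1) else if i = 1 then (0, 0) else (1, 2)
  | Sum.inr q => if q = 0 then (2, 1) else if q = 1 then (1, 0) else (1, 3)

/-- the model of `K3:0,1,02` in the grid -/
def cm1 (v : Fin 4 × Fin 4) : Option (Fin 3 ⊕ Fin 3) :=
  if v.1 = 0 then (if v.2 = 0 then some (Sum.inr 0) else none)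
  else if v.1 = 1 then (if v.2.val < 3 then some (Sum.inl 0) else none)
  else if v.1 = 2 then
    (if v.2 = 0 then some (Sum.inl 1) else if v.2 = 1 then some (Sum.inl 2)
      else if v.2 = 2 then some (Sum.inr 2) else none)
  else (if v.2 = 0 then some (Sum.inr 1) else none)

/-- the roots of the branch sets -/
def rt1 : Fin 3 ⊕ Fin 3 → Fin 4 × Fin 4
  | Sum.inl i => if i = 0 then (1, 0) else if i = 1 then (2, 0) else (2, 1)
  | Sum.inr q => if q = 0 then (0, 0) else if q = 1 then (3, 0) else (2, 2)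

set_option synthInstance.maxSize 1000 in
theorem grid3 : InGrid (KA 3 3 ![{0}, {0, 1}, {1, 2}]) := by
  refine A0.aGrAux.inGrid_of _ cm3 rt3 (fun v => 4 * v.1.val + v.2.val) (by decide) (by decide)
    ?_ ?_
  · intro w w' hne h
    rw [kab_iff mem3] at h
    revert w w'
    decide
  · intro x y h w w' hx hy hne
    rw [kab_iff mem3]
    revert x y w w'
    decide

set_option synthInstance.maxSize 1000 in
theorem grid1 : InGrid (KA 3 3 ![{0}, {1}, {0, 2}]) := by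
  refine A0.aGrAux.inGrid_of _ cm1 rt1 (fun v => 4 * v.1.val + v.2.val) (by decide) (by decide)
    ?_ ?_
  · intro w w' hne h
    rw [kab_iff mem1] at h
    revert w w'
    decide
  · intro x y h w w' hx hy hne
    rw [kab_iff mem1]
    revert x y w w'
    decide

theorem kf3_eq : (KF 3 3 ![{0}, {0, 1}, {1, 2}] : SimpleGraph (Fin 3 ⊕ Fin 3)) =
    KA 3 3 ![{0}, {0, 1}, {1, 2}] := by
  have h : (fun q => ((![{0}, {0, 1}, {1, 2}] : Fin 3 → Finset (Fin 3)) q : Set (Fin 3))) =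
      (![{0}, {0, 1}, {1, 2}] : Fin 3 → Set (Fin 3)) := by
    funext q
    fin_cases q <;> simp
  unfold KF
  rw [h]

theorem kf1_eq : (KF 3 3 ![{0}, {1}, {0, 2}] : SimpleGraph (Fin 3 ⊕ Fin 3)) =
    KA 3 3 ![{0}, {1}, {0, 2}] := by
  have h : (fun q => ((![{0}, {1}, {0, 2}] : Fin 3 → Finset (Fin 3)) q : Set (Fin 3))) =
      (![{0}, {1}, {0, 2}] : Fin 3 → Set (Fin 3)) := by
    funext q
    fin_cases q <;> simp
  unfold KF
  rw [h]

/-- **KB for `K3:0,01,12`** -/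
theorem kb3 : H3N.S_KB := fun n => by
  obtain ⟨k, hk⟩ := kb (kf3_eq ▸ F9.i1.2.2.2.2.1 : DT (KA 3 3 ![{0}, {0, 1}, {1, 2}])) grid3 n
  exact ⟨k, fun V _ G h1 h2 => hk V G h1 h2⟩

/-- KB for `K3:0,01,12`, with `KF` -/
theorem kb3F (n : ℕ) : ∃ k : ℕ, ∀ (V : Type) [Finite V] (G : SimpleGraph V),
    ¬ IMS (KF 3 3 ![{0}, {0, 1}, {1, 2}]) G Set.univ → ¬ Knn G n → Lay G k Set.univ :=
  kb F9.i1.2.2.2.2.1 (kf3_eq ▸ grid3) n

/-- **KB for `K3:0,1,02`** -/
theorem kb1 (n : ℕ) : ∃ k : ℕ, ∀ (V : Type) [Finite V] (G : SimpleGraph V),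
    ¬ IMS (KA 3 3 ![{0}, {1}, {0, 2}]) G Set.univ → ¬ Knn G n → Lay G k Set.univ :=
  kb (kf1_eq ▸ F9.i1.2.2.2.2.2.1) grid1 n

/-- KB for `K3:0,1,02`, with `KF` -/
theorem kb1F (n : ℕ) : ∃ k : ℕ, ∀ (V : Type) [Finite V] (G : SimpleGraph V),
    ¬ IMS (KF 3 3 ![{0}, {1}, {0, 2}]) G Set.univ → ¬ Knn G n → Lay G k Set.univ :=
  kb F9.i1.2.2.2.2.2.1 (kf1_eq ▸ grid1) n

end Pool.Agent.MPd439b2.X3
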