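import Pool.Agent.Lib.MP_d439b2_co.Rep.X3Asm
import Pool.Agent.Lib.MP_d439b2_co.X3.H3N.All
import Pool.Agent.Lib.MP_d439b2_co.X3.H3B.Mn
import Pool.Agent.Lib.MP_d439b2_co.X3.H3B.Near
import Pool.Agent.Lib.MP_d439b2_co.X3.H3B.Fin

/-!
# MP_d439b2_co, X3/H3F: the pair `(K3:0,01,12 ; co(P_3 + 4 P_2))` is bounded (helper7)
-/

set_option autoImplicit false

namespace Pool.Agent.MPd439b2.X3

open Pool.Agent.MPd439b2

/-- linked graphs without `K3:0,01,12` and `co(P_3 + 4 P_2)` have no large induced matchings -/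
theorem h3N : H3N.S_N := H3N.nOf (H3B.beOf H3B.mn H3B.near)

/-- **The pair `(K3:0,01,12 ; co(P_3 + 4 P_2))` has bounded clique-width.** -/
theorem h3F : BoundedCW (F9.KF 3 3 ![{0}, {0, 1}, {1, 2}]) (F9.JS ![0, 1, 1] 4) := Rep.x3H1 h3N

end Pool.Agent.MPd439b2.X3
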